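import Pool.Agent.H62.EF.Defs

/-! Project EF, module EF6 (helper41): geometry of pieces. -/

namespace Pool.Agent.H41.EF
open Finset Pool.Agent.H62.EF

/-- EF6. Geometry of pieces. -/
theorem EF6a {n d : ℕ} (x : Fin n → P d) (j : Fin n) : Convex ℝ (piece x j) := by
  intro y hy z hz a b ha hb hab l
  have h1 := mul_le_mul_of_nonneg_left (hy l) ha
  have h2 := mul_le_mul_of_nonneg_left (hz l) hb
  have key : ∀ m : Fin n, (∑ c, (x m).1 c * (a • y + b • z) c) + (x m).2
      = a * ((∑ c, (x m).1 c * y c) + (x m).2) + b * ((∑ c, (x m).1 c * z c) + (x m).2) := by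
    intro m
    have : (x m).2 = (a + b) * (x m).2 := by rw [hab, one_mul]
    have hs : (∑ c, (x m).1 c * (a • y + b • z) c)
        = a * (∑ c, (x m).1 c * y c) + b * (∑ c, (x m).1 c * z c) := by
      rw [Finset.mul_sum, Finset.mul_sum, ← Finset.sum_add_distrib]
      refine Finset.sum_congr rfl fun c _ => ?_
      simp only [PiLp.add_apply, PiLp.smul_apply, smul_eq_mul]
      ring
    rw [hs]
    linear_combination this
  rw [key l, key j]
  exact add_le_add h1 h2

theorem continuous_aff {n d : ℕ} (x : Fin n → P d) (m : Fin n) :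
    Continuous fun y : EuclideanSpace ℝ (Fin d) => (∑ c, (x m).1 c * y c) + (x m).2 := by
  fun_prop

theorem EF6b {n d : ℕ} (x : Fin n → P d) (j : Fin n) : IsClosed (piece x j) := by
  have : piece x j = ⋂ l : Fin n, {y : EuclideanSpace ℝ (Fin d) |
      (∑ c, (x l).1 c * y c) + (x l).2 ≤ (∑ c, (x j).1 c * y c) + (x j).2} := by
    ext y; simp [piece]
  rw [this]
  exact isClosed_iInter fun l => isClosed_le (continuous_aff x l) (continuous_aff x j)

theorem EF6c {n d : ℕ} (hn : 0 < n) (x : Fin n → P d) : (⋃ j, piece x j) = Set.univ := by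
  have : Nonempty (Fin n) := ⟨⟨0, hn⟩⟩
  refine Set.eq_univ_of_forall fun y => ?_
  obtain ⟨j, hj⟩ := Finite.exists_max
    (fun m : Fin n => (∑ c, (x m).1 c * y c) + (x m).2)
  exact Set.mem_iUnion.2 ⟨j, hj⟩

/-- two affine functions that agree near a point are equal -/
theorem eq_of_agree {n d : ℕ} (x : Fin n → P d) (i j : Fin n) (y : EuclideanSpace ℝ (Fin d))
    (h : ∀ᶠ z in nhds y, (∑ c, (x i).1 c * z c) + (x i).2 = (∑ c, (x j).1 c * z c) + (x j).2) :
    x i = x j := by
  have hy := h.self_of_nhds
  have hs : ∀ c : Fin d, (x i).1 c = (x j).1 c := by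
    intro c
    have hc : Continuous fun t : ℝ => y + t • EuclideanSpace.single c (1 : ℝ) := by fun_prop
    have h0 : Filter.Tendsto (fun t : ℝ => y + t • EuclideanSpace.single c (1 : ℝ)) (nhds 0)
        (nhds y) := by
      have := hc.tendsto 0
      simpa using this
    have h1 := h0.eventually h
    rw [Metric.eventually_nhds_iff] at h1
    obtain ⟨ε, hε, h2⟩ := h1
    have h3 := h2 (y := ε / 2) (by rw [Real.dist_eq, sub_zero, abs_of_pos (by linarith)]; linarith)
    have key : ∀ m : Fin n, (∑ c', (x m).1 c' * (y + (ε / 2) • EuclideanSpace.single c (1 : ℝ)) c')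
        = (∑ c', (x m).1 c' * y c') + (x m).1 c * (ε / 2) := by
      intro m
      have : (∑ c', (x m).1 c' * (if c' = c then ε / 2 else 0)) = (x m).1 c * (ε / 2) := by
        simp
      rw [← this, ← Finset.sum_add_distrib]
      refine Finset.sum_congr rfl fun c' _ => ?_
      simp only [PiLp.add_apply, PiLp.smul_apply, smul_eq_mul, PiLp.single_apply]
      split_ifs <;> ring
    rw [key i, key j] at h3
    have h4 : (x i).1 c * (ε / 2) = (x j).1 c * (ε / 2) := by linarith
    exact mul_right_cancel₀ (by positivity) h4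
  have h1 : (x i).1 = (x j).1 := funext hs
  have h2 : (x i).2 = (x j).2 := by
    rw [h1] at hy
    linarith
  exact Prod.ext h1 h2

theorem EF6d {n d : ℕ} (x : Fin n → P d) (hx : Function.Injective x) (i j : Fin n) (hij : i ≠ j) :
    Disjoint (interior (piece x i)) (interior (piece x j)) := by
  rw [Set.disjoint_left]
  intro y hi hj
  apply hij
  apply hx
  refine eq_of_agree x i j y ?_
  have h1 := mem_interior_iff_mem_nhds.1 hi
  have h2 := mem_interior_iff_mem_nhds.1 hj
  filter_upwards [h1, h2] with z hz1 hz2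
  exact le_antisymm (hz2 i) (hz1 j)

/-- The set where two different affine functions agree is null. -/
theorem null_agree {n d : ℕ} (x : Fin n → P d) (i j : Fin n) (hij : x i ≠ x j) :
    MeasureTheory.volume {z : EuclideanSpace ℝ (Fin d) |
      (∑ c, (x i).1 c * z c) + (x i).2 = (∑ c, (x j).1 c * z c) + (x j).2} = 0 := by
  let s : AffineSubspace ℝ (EuclideanSpace ℝ (Fin d)) :=
    { carrier := {z | (∑ c, (x i).1 c * z c) + (x i).2 = (∑ c, (x j).1 c * z c) + (x j).2}
      smul_vsub_vadd_mem' := by
        intro t p q r hp hq hr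
        have key : ∀ m : Fin n, (∑ c, (x m).1 c * (t • (p -ᵥ q) +ᵥ r) c) + (x m).2
            = t * (((∑ c, (x m).1 c * p c) + (x m).2) - ((∑ c, (x m).1 c * q c) + (x m).2))
              + ((∑ c, (x m).1 c * r c) + (x m).2) := by
          intro m
          have hs : (∑ c, (x m).1 c * (t • (p -ᵥ q) +ᵥ r) c)
              = t * ((∑ c, (x m).1 c * p c) - (∑ c, (x m).1 c * q c))
                + (∑ c, (x m).1 c * r c) := by
            rw [← Finset.sum_sub_distrib, Finset.mul_sum, ← Finset.sum_add_distrib]
            refine Finset.sum_congr rfl fun c _ => ?_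
            simp only [vsub_eq_sub, vadd_eq_add, PiLp.add_apply, PiLp.smul_apply, PiLp.sub_apply,
              smul_eq_mul]
            ring
          rw [hs]
          ring
        simp only [Set.mem_ofPred_eq] at hp hq hr ⊢
        rw [key i, key j, hp, hq, hr] }
  have hs : s ≠ ⊤ := by
    intro hs
    apply hij
    refine eq_of_agree x i j 0 (Filter.Eventually.of_forall fun z => ?_)
    have hz : z ∈ s := by rw [hs]; exact AffineSubspace.mem_top _ _ _
    exact hz
  exact MeasureTheory.Measure.addHaar_affineSubspace MeasureTheory.volume s hs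

/-- measures of pieces depend continuously on the parameters, for injective configurations -/
theorem EF6e {n d : ℕ} (μ : MeasureTheory.Measure (EuclideanSpace ℝ (Fin d)))
    [MeasureTheory.IsFiniteMeasure μ]
    (hμ : MeasureTheory.Measure.AbsolutelyContinuous μ MeasureTheory.volume)
    (x : Fin n → P d) (hx : Function.Injective x) (j : Fin n) :
    ContinuousAt (fun z : Fin n → P d => μ (piece z j)) x := by
  refine MeasureTheory.tendsto_measure_of_ae_tendsto_indicator_of_isFiniteMeasure (nhds x)
    (EF6b x j).measurableSet (fun z => (EF6b z j).measurableSet) ?_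
  have hnull : ∀ᵐ y ∂μ, ∀ l : Fin n, l ≠ j →
      (∑ c, (x l).1 c * y c) + (x l).2 ≠ (∑ c, (x j).1 c * y c) + (x j).2 := by
    rw [MeasureTheory.ae_all_iff]
    intro l
    by_cases hl : l = j
    · simp [hl]
    · have h0 := hμ (null_agree x l j (fun h => hl (hx h)))
      have h1 : ∀ᵐ y ∂μ, ¬ ((∑ c, (x l).1 c * y c) + (x l).2
          = (∑ c, (x j).1 c * y c) + (x j).2) := by
        rw [MeasureTheory.ae_iff]
        simpa using h0
      filter_upwards [h1] with y hy _
      exact hy
  filter_upwards [hnull] with y hy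
  have hcont : ∀ l : Fin n, Continuous fun z : Fin n → P d =>
      (∑ c, (z l).1 c * y c) + (z l).2 := by
    intro l; fun_prop
  by_cases hmem : y ∈ piece x j
  · have hstr : ∀ l : Fin n, l ≠ j →
        (∑ c, (x l).1 c * y c) + (x l).2 < (∑ c, (x j).1 c * y c) + (x j).2 :=
      fun l hl => lt_of_le_of_ne (hmem l) (hy l hl)
    have hev : ∀ᶠ z in nhds x, ∀ l : Fin n, l ≠ j →
        (∑ c, (z l).1 c * y c) + (z l).2 < (∑ c, (z j).1 c * y c) + (z j).2 := by
      rw [Filter.eventually_all]
      intro l
      by_cases hl : l = j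
      · exact Filter.Eventually.of_forall fun z h => absurd hl h
      · filter_upwards [(hcont l).continuousAt.eventually_lt (hcont j).continuousAt (hstr l hl)]
          with z hz _
        exact hz
    filter_upwards [hev] with z hz
    refine iff_of_true ?_ hmem
    intro l
    by_cases hl : l = j
    · rw [hl]
    · exact (hz l hl).le
  · have hex : ∃ l : Fin n, (∑ c, (x j).1 c * y c) + (x j).2 < (∑ c, (x l).1 c * y c) + (x l).2 := by
      by_contra hcon
      apply hmem
      intro l
      by_contra hl
      exact hcon ⟨l, not_le.1 hl⟩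
    obtain ⟨l, hl⟩ := hex
    filter_upwards [(hcont j).continuousAt.eventually_lt (hcont l).continuousAt hl] with z hz
    refine iff_of_false ?_ hmem
    intro h
    exact absurd (h l) (not_le.2 hz)

end Pool.Agent.H41.EF
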